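import Mathlib

/-!
# Zero-sum partitions of sequences in `ZMod m`, `m = 5`, `m = 7`, or all elements but one equal

For `m = 5` and `m = 7` every zero-sum sequence of non-zero elements of `ℤ / m` splits into
`min_j (1 / m) ∑ (j x mod m)` zero-sum subsequences (`j` runs over the units); the same holds for all
`m` if all elements but one are equal to one unit.
-/

set_option autoImplicit false

namespace Pool.Agent.J4.H61.BC

open Finset

variable {ι : Type} [DecidableEq ι]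

/-- `S` is a disjoint union of sets the sum of the residues of which is `m` -/
def T (m : ℕ) (f : ι → ℤ) (S : Finset ι) : Prop :=
  ∃ P : Finpartition S, (∀ A ∈ P.parts, (m : ℤ) ∣ ∑ i ∈ A, f i) ∧
    ∑ i ∈ S, f i % (m : ℤ) = m * (#P.parts : ℤ)

/-- the number of elements of residue `r` -/
def cnt (m : ℕ) (f : ι → ℤ) (S : Finset ι) (r : Fin m) : ℕ :=
  #(S.filter fun i => f i % (m : ℤ) = ((r : ℕ) : ℤ))

lemma T_empty (m : ℕ) (f : ι → ℤ) : T m f ∅ :=
  ⟨Finpartition.empty _, by intro A hA; simp at hA, by simp⟩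

omit [DecidableEq ι] in
lemma sum_mod {m : ℕ} (f : ι → ℤ) (S : Finset ι) :
    (m : ℤ) ∣ ∑ i ∈ S, f i ↔ (m : ℤ) ∣ ∑ i ∈ S, f i % (m : ℤ) := by
  have h1 : (m : ℤ) ∣ ∑ j ∈ S, f j - ∑ j ∈ S, f j % m := by
    rw [← Finset.sum_sub_distrib]
    exact Finset.dvd_sum fun j _ => Int.dvd_self_sub_emod
  constructor
  · intro h
    exact (dvd_sub_right h).1 h1
  · intro h
    exact (dvd_sub_left h).1 h1

lemma T_cons {m : ℕ} {f : ι → ℤ} {S B : Finset ι} (hm : 0 < m) (hB : B ⊆ S)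
    (hs : ∑ i ∈ B, f i % (m : ℤ) = m) (h : T m f (S \ B)) : T m f S := by
  obtain ⟨P, hP, hc⟩ := h
  have hne : B ≠ ∅ := by
    rintro rfl
    rw [sum_empty] at hs
    omega
  have hdis : Disjoint (S \ B) B := Finset.sdiff_disjoint
  have hsup : (S \ B) ⊔ B = S := Finset.sdiff_union_of_subset hB
  refine ⟨P.extend (b := B) hne hdis hsup, ?_, ?_⟩
  · intro C hC
    rw [Finpartition.extend_parts, Finset.mem_insert] at hC
    rcases hC with rfl | hC
    · rw [sum_mod, hs]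
    · exact hP C hC
  · rw [Finpartition.card_extend, ← Finset.sum_sdiff hB, hs, hc]
    push_cast
    ring

omit [DecidableEq ι] in
lemma sum_cnt {m : ℕ} (hm : 0 < m) (f : ι → ℤ) (S : Finset ι) (F : ℤ → ℤ) :
    ∑ i ∈ S, F (f i % (m : ℤ)) = ∑ r : Fin m, (cnt m f S r : ℤ) * F ((r : ℕ) : ℤ) := by
  have hm' : (0 : ℤ) < m := by exact_mod_cast hm
  have h1 : ∀ i ∈ S, (⟨(f i % (m : ℤ)).toNat, by
      have := Int.emod_lt_of_pos (f i) hm'
      have := Int.emod_nonneg (f i) hm'.ne'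
      omega⟩ : Fin m) ∈ (univ : Finset (Fin m)) := fun i _ => mem_univ _
  rw [← Finset.sum_fiberwise_of_maps_to h1]
  apply sum_congr rfl
  intro r _
  unfold cnt
  rw [← nsmul_eq_mul, ← Finset.sum_const]
  have h2 : (S.filter fun i => (⟨(f i % (m : ℤ)).toNat, by
      have := Int.emod_lt_of_pos (f i) hm'
      have := Int.emod_nonneg (f i) hm'.ne'
      omega⟩ : Fin m) = r) = S.filter fun i => f i % (m : ℤ) = ((r : ℕ) : ℤ) := by
    apply filter_congr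
    intro i _
    have := Int.emod_nonneg (f i) hm'.ne'
    rw [Fin.ext_iff]
    simp only
    omega
  rw [h2]
  apply sum_congr rfl
  intro i hi
  rw [(mem_filter.1 hi).2]

lemma pick {m : ℕ} (f : ι → ℤ) (S : Finset ι) (b : Fin m → ℕ) (hb : ∀ r, b r ≤ cnt m f S r) :
    ∃ B ⊆ S, (∀ r, cnt m f B r = b r) ∧ ∀ r, cnt m f (S \ B) r + b r = cnt m f S r := by
  choose Q hQ hQc using fun r => Finset.exists_subset_card_eq (hb r)
  have hQ' : ∀ r, ∀ i ∈ Q r, i ∈ S ∧ f i % (m : ℤ) = ((r : ℕ) : ℤ) := fun r i hi =>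
    mem_filter.1 (hQ r hi)
  have hBS : (univ.biUnion Q) ⊆ S := by
    intro i hi
    rw [mem_biUnion] at hi
    obtain ⟨r, _, hr⟩ := hi
    exact (hQ' r i hr).1
  have hfil : ∀ r : Fin m, ((univ.biUnion Q).filter fun i => f i % (m : ℤ) = ((r : ℕ) : ℤ)) = Q r := by
    intro r
    ext i
    rw [mem_filter, mem_biUnion]
    constructor
    · rintro ⟨⟨s, _, hs⟩, h2⟩
      have h3 := (hQ' s i hs).2
      have : s = r := by
        rw [Fin.ext_iff]
        omega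
      rwa [← this]
    · intro hi
      exact ⟨⟨r, mem_univ _, hi⟩, (hQ' r i hi).2⟩
  refine ⟨univ.biUnion Q, hBS, fun r => ?_, fun r => ?_⟩
  · unfold cnt
    rw [hfil, hQc]
  · have h1 : (S \ univ.biUnion Q).filter (fun i => f i % (m : ℤ) = ((r : ℕ) : ℤ)) =
        (S.filter fun i => f i % (m : ℤ) = ((r : ℕ) : ℤ)) \ Q r := by
      rw [← hfil r]
      ext i
      simp only [mem_filter, mem_sdiff]
      tauto
    unfold cnt
    rw [h1, card_sdiff_of_subset (hQ r), hQc]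
    have := hb r
    unfold cnt at this
    omega

/-- all sets with the given numbers of residues satisfy `T` -/
def G (m : ℕ) (f : ι → ℤ) (a : Fin m → ℕ) : Prop :=
  ∀ S : Finset ι, (∀ r, cnt m f S r = a r) → T m f S

lemma G_zero {m : ℕ} (hm : 0 < m) (f : ι → ℤ) : G m f 0 := by
  intro S hS
  have : (∑ i ∈ S, (1 : ℤ)) = 0 := by
    rw [sum_cnt hm f S (fun _ => 1)]
    apply sum_eq_zero
    intro r _
    rw [hS r]
    simp
  rw [sum_const, nsmul_eq_mul, mul_one] at this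
  have h0 : #S = 0 := by exact_mod_cast this
  rw [card_eq_zero] at h0
  rw [h0]
  exact T_empty m f

lemma G_cons {m : ℕ} (hm : 0 < m) {f : ι → ℤ} {a b : Fin m → ℕ} (hb : ∑ r : Fin m, b r * (r : ℕ) = m)
    (h : G m f a) : G m f (b + a) := by
  intro S hS
  obtain ⟨B, hBS, hB, hB'⟩ := pick f S b (fun r => by rw [hS r]; simp)
  refine T_cons hm hBS ?_ (h _ fun r => ?_)
  · have := sum_cnt hm f B (fun x => x)
    rw [this]
    have h2 : ∀ r : Fin m, (cnt m f B r : ℤ) * ((r : ℕ) : ℤ) = ((b r * (r : ℕ) : ℕ) : ℤ) := by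
      intro r
      rw [hB r]
      push_cast
      ring
    rw [sum_congr rfl (fun r _ => h2 r), ← Nat.cast_sum, hb]
  · have := hB' r
    rw [hS r] at this
    simp only [Pi.add_apply] at this
    omega

lemma G_nsmul {m : ℕ} (hm : 0 < m) {f : ι → ℤ} {a b : Fin m → ℕ}
    (hb : ∑ r : Fin m, b r * (r : ℕ) = m) (k : ℕ) (h : G m f a) : G m f (k • b + a) := by
  induction k with
  | zero => simpa using h
  | succ k ih =>
    have := G_cons hm hb ih
    rwa [← add_assoc, ← succ_nsmul'] at this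

/-- from the sequence multiplied by a unit to the sequence -/
lemma of_T {m : ℕ} {f : ι → ℤ} {S : Finset ι} {j : ℕ} (hj : j.Coprime m)
    (h : T m (fun i => j * f i) S) :
    ∃ P : Finpartition S, (∀ A ∈ P.parts, (m : ℤ) ∣ ∑ i ∈ A, f i) ∧
      ∃ j : ℕ, j.Coprime m ∧ ∑ i ∈ S, (j * f i) % (m : ℤ) ≤ m * P.parts.card := by
  obtain ⟨P, hP, hc⟩ := h
  refine ⟨P, fun A hA => ?_, j, hj, hc.le⟩
  have h1 := hP A hA
  rw [← mul_sum] at h1
  exact Int.dvd_of_dvd_mul_right_of_gcd_one h1 (by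
    rw [Int.gcd_comm]
    exact_mod_cast hj)

omit [DecidableEq ι] in
/-- the unit with the smallest sum -/
lemma exists_min {m : ℕ} (hm : m.Prime) (f : ι → ℤ) (S : Finset ι) :
    ∃ j : ℕ, j.Coprime m ∧ ∀ l : ℕ, l.Coprime m →
      ∑ i ∈ S, (j * f i) % (m : ℤ) ≤ ∑ i ∈ S, (l * (j * f i)) % (m : ℤ) := by
  obtain ⟨j, hj, hmin⟩ := Finset.exists_min_image (Finset.Icc 1 (m - 1))
    (fun j => ∑ i ∈ S, ((j : ℤ) * f i) % (m : ℤ)) ⟨1, by
      rw [mem_Icc]
      have := hm.two_le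
      omega⟩
  rw [mem_Icc] at hj
  have h2 := hm.two_le
  have hcop : ∀ j, 1 ≤ j → j ≤ m - 1 → j.Coprime m := fun j h1 h2 =>
    (Nat.Coprime.symm ((Nat.Prime.coprime_iff_not_dvd hm).2
      (fun hd => by have := Nat.le_of_dvd (by omega) hd; omega)))
  refine ⟨j, hcop j hj.1 hj.2, fun l hl => ?_⟩
  have hlj : (l * j).Coprime m := Nat.Coprime.mul_left hl (hcop j hj.1 hj.2)
  have h3 : 1 ≤ (l * j) % m := by
    rw [Nat.one_le_iff_ne_zero]
    intro h0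
    have h4 := Nat.Coprime.eq_one_of_dvd (hlj.symm) (Nat.dvd_of_mod_eq_zero h0)
    omega
  have h4 : (l * j) % m < m := Nat.mod_lt _ (by omega)
  have h5 := hmin ((l * j) % m) (mem_Icc.2 ⟨h3, by omega⟩)
  refine h5.trans (le_of_eq ?_)
  apply sum_congr rfl
  intro i _
  push_cast
  rw [← mul_assoc]
  exact Int.ModEq.mul_right _ (Int.mod_modEq _ _)

omit [DecidableEq ι] in
lemma cnt_zero {m : ℕ} [NeZero m] {f : ι → ℤ} {S : Finset ι} (hf : ∀ i ∈ S, ¬ (m : ℤ) ∣ f i) :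
    cnt m f S 0 = 0 := by
  unfold cnt
  rw [card_eq_zero, filter_eq_empty_iff]
  intro i hi h
  exact hf i hi (Int.dvd_of_emod_eq_zero (by simpa using h))

/-! ### `m = 5` -/

lemma G5 {f : ι → ℤ} {a : Fin 5 → ℕ} (k41 k32 k311 k221 k2111 k11111 : ℕ) (h0 : a 0 = 0)
    (h1 : a 1 = k41 + 2 * k311 + k221 + 3 * k2111 + 5 * k11111)
    (h2 : a 2 = k32 + 2 * k221 + k2111) (h3 : a 3 = k32 + k311) (h4 : a 4 = k41) : G 5 f a := by
  have key := G_nsmul (f := f) (b := ![0, 1, 0, 0, 1]) (by norm_num : 0 < 5) (by decide) k41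
    (G_nsmul (b := ![0, 0, 1, 1, 0]) (by norm_num : 0 < 5) (by decide) k32
    (G_nsmul (b := ![0, 2, 0, 1, 0]) (by norm_num : 0 < 5) (by decide) k311
    (G_nsmul (b := ![0, 1, 2, 0, 0]) (by norm_num : 0 < 5) (by decide) k221
    (G_nsmul (b := ![0, 3, 1, 0, 0]) (by norm_num : 0 < 5) (by decide) k2111
    (G_nsmul (b := ![0, 5, 0, 0, 0]) (by norm_num : 0 < 5) (by decide) k11111
    (G_zero (by norm_num : 0 < 5) f))))))
  convert key using 1
  ext r
  fin_cases r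
  · simpa using h0
  · simp; omega
  · simp; omega
  · simp; omega
  · simp; omega

lemma num5 {f : ι → ℤ} {a : Fin 5 → ℕ} (h0 : a 0 = 0)
    (hd : (5 : ℤ) ∣ (a 1 : ℤ) + 2 * a 2 + 3 * a 3 + 4 * a 4)
    (c2 : (a 1 : ℤ) + 2 * a 2 + 3 * a 3 + 4 * a 4 ≤ 2 * a 1 + 4 * a 2 + a 3 + 3 * a 4)
    (c3 : (a 1 : ℤ) + 2 * a 2 + 3 * a 3 + 4 * a 4 ≤ 3 * a 1 + a 2 + 4 * a 3 + 2 * a 4)
    (_c4 : (a 1 : ℤ) + 2 * a 2 + 3 * a 3 + 4 * a 4 ≤ 4 * a 1 + 3 * a 2 + 2 * a 3 + a 4) :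
    G 5 f a := by
  by_cases h : a 2 ≤ a 3
  · exact G5 (a 4) (a 2) (a 3 - a 2) 0 0 ((a 1 - a 4 - 2 * (a 3 - a 2)) / 5) h0 (by omega) (by omega)
      (by omega) (by omega)
  · by_cases h' : (a 2 - a 3) % 2 = 0
    · exact G5 (a 4) (a 3) 0 ((a 2 - a 3) / 2) 0 ((a 1 - a 4 - (a 2 - a 3) / 2) / 5) h0 (by omega)
        (by omega) (by omega) (by omega)
    · exact G5 (a 4) (a 3) 0 ((a 2 - a 3) / 2) 1 ((a 1 - a 4 - (a 2 - a 3) / 2 - 3) / 5) h0
        (by omega) (by omega) (by omega) (by omega)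

omit [DecidableEq ι] in
/-- the sum of the multiples by the numbers of the residues -/
lemma sum_mul {m : ℕ} (hm : 0 < m) (g : ι → ℤ) (S : Finset ι) (l : ℕ) :
    ∑ i ∈ S, ((l : ℤ) * g i) % (m : ℤ) =
      ∑ r : Fin m, (cnt m g S r : ℤ) * (((l : ℤ) * ((r : ℕ) : ℤ)) % (m : ℤ)) := by
  rw [← sum_cnt hm g S (fun x => ((l : ℤ) * x) % (m : ℤ))]
  apply sum_congr rfl
  intro i _
  exact (Int.ModEq.mul_left _ (Int.mod_modEq _ _)).symm

/-- reduction to the numbers of the residues -/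
lemma of_num {m : ℕ} (hm : m.Prime) {S : Finset ι} {f : ι → ℤ}
    (hf : ∀ i ∈ S, ¬ (m : ℤ) ∣ f i) (hs : (m : ℤ) ∣ ∑ i ∈ S, f i)
    (H : ∀ (g : ι → ℤ) (a : Fin m → ℕ), (∀ r : Fin m, (r : ℕ) = 0 → a r = 0) →
      (m : ℤ) ∣ ∑ r : Fin m, (a r : ℤ) * ((((1 : ℕ) : ℤ) * ((r : ℕ) : ℤ)) % (m : ℤ)) →
      (∀ l : ℕ, l.Coprime m →
        ∑ r : Fin m, (a r : ℤ) * ((((1 : ℕ) : ℤ) * ((r : ℕ) : ℤ)) % (m : ℤ)) ≤
        ∑ r : Fin m, (a r : ℤ) * (((l : ℤ) * ((r : ℕ) : ℤ)) % (m : ℤ))) → G m g a) :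
    ∃ P : Finpartition S, (∀ A ∈ P.parts, (m : ℤ) ∣ ∑ i ∈ A, f i) ∧
      ∃ j : ℕ, j.Coprime m ∧ ∑ i ∈ S, (j * f i) % (m : ℤ) ≤ m * P.parts.card := by
  obtain ⟨j, hj, hmin⟩ := exists_min hm f S
  apply of_T hj
  refine H (fun i => (j : ℤ) * f i) (cnt m (fun i => (j : ℤ) * f i) S) ?_ ?_ ?_ S (fun r => rfl)
  · intro r hr
    unfold cnt
    rw [card_eq_zero, filter_eq_empty_iff]
    intro i hi h
    rw [hr] at h
    refine hf i hi (Int.dvd_of_dvd_mul_right_of_gcd_one (Int.dvd_of_emod_eq_zero (by simpa using h)) ?_)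
    rw [Int.gcd_comm]
    exact_mod_cast hj
  · rw [← sum_mul hm.pos, ← sum_mod, ← mul_sum, ← mul_sum]
    exact Dvd.dvd.mul_left (Dvd.dvd.mul_left hs _) _
  · intro l hl
    rw [← sum_mul hm.pos, ← sum_mul hm.pos]
    refine le_trans (le_of_eq ?_) (hmin l hl)
    simp

/-- `m = 5` -/
theorem exists_partition_five {m : ℕ} (hm : m = 5) (S : Finset ι) (f : ι → ℤ)
    (hf : ∀ i ∈ S, ¬ (m : ℤ) ∣ f i) (hs : (m : ℤ) ∣ ∑ i ∈ S, f i) :
    ∃ P : Finpartition S, (∀ A ∈ P.parts, (m : ℤ) ∣ ∑ i ∈ A, f i) ∧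
      ∃ j : ℕ, j.Coprime m ∧ ∑ i ∈ S, (j * f i) % (m : ℤ) ≤ m * P.parts.card := by
  subst hm
  refine of_num (by norm_num) hf hs ?_
  intro g a h0 hd hl
  have m2 := hl 2 (by norm_num)
  have m3 := hl 3 (by norm_num)
  have m4 := hl 4 (by norm_num)
  simp only [Fin.sum_univ_five] at hd m2 m3 m4
  norm_num at hd m2 m3 m4
  refine num5 (h0 0 rfl) ?_ ?_ ?_ ?_
  · convert hd using 1
    ring
  · linarith
  · linarith
  · linarith

/-! ### `m = 7` -/

lemma G7 {f : ι → ℤ} {a : Fin 7 → ℕ} (k61 k52 k43 k511 k421 k4111 k331 k322 k3211 k31111 k2221 k22111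
      k211111 k1 : ℕ) (h0 : a 0 = 0)
    (h1 : a 1 = k61 + 2 * k511 + k421 + 3 * k4111 + k331 + 2 * k3211 + 4 * k31111 + k2221 +
      3 * k22111 + 5 * k211111 + 7 * k1)
    (h2 : a 2 = k52 + k421 + 2 * k322 + k3211 + 3 * k2221 + 2 * k22111 + k211111)
    (h3 : a 3 = k43 + 2 * k331 + k322 + k3211 + k31111) (h4 : a 4 = k43 + k421 + k4111)
    (h5 : a 5 = k52 + k511) (h6 : a 6 = k61) : G 7 f a := by
  have key := G_nsmul (f := f) (b := ![0, 1, 0, 0, 0, 0, 1]) (by norm_num : 0 < 7) (by decide) k61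
    (G_nsmul (b := ![0, 0, 1, 0, 0, 1, 0]) (by norm_num : 0 < 7) (by decide) k52
    (G_nsmul (b := ![0, 0, 0, 1, 1, 0, 0]) (by norm_num : 0 < 7) (by decide) k43
    (G_nsmul (b := ![0, 2, 0, 0, 0, 1, 0]) (by norm_num : 0 < 7) (by decide) k511
    (G_nsmul (b := ![0, 1, 1, 0, 1, 0, 0]) (by norm_num : 0 < 7) (by decide) k421
    (G_nsmul (b := ![0, 3, 0, 0, 1, 0, 0]) (by norm_num : 0 < 7) (by decide) k4111
    (G_nsmul (b := ![0, 1, 0, 2, 0, 0, 0]) (by norm_num : 0 < 7) (by decide) k331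
    (G_nsmul (b := ![0, 0, 2, 1, 0, 0, 0]) (by norm_num : 0 < 7) (by decide) k322
    (G_nsmul (b := ![0, 2, 1, 1, 0, 0, 0]) (by norm_num : 0 < 7) (by decide) k3211
    (G_nsmul (b := ![0, 4, 0, 1, 0, 0, 0]) (by norm_num : 0 < 7) (by decide) k31111
    (G_nsmul (b := ![0, 1, 3, 0, 0, 0, 0]) (by norm_num : 0 < 7) (by decide) k2221
    (G_nsmul (b := ![0, 3, 2, 0, 0, 0, 0]) (by norm_num : 0 < 7) (by decide) k22111
    (G_nsmul (b := ![0, 5, 1, 0, 0, 0, 0]) (by norm_num : 0 < 7) (by decide) k211111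
    (G_nsmul (b := ![0, 7, 0, 0, 0, 0, 0]) (by norm_num : 0 < 7) (by decide) k1
    (G_zero (by norm_num : 0 < 7) f))))))))))))))
  convert key using 1
  ext r
  fin_cases r
  · simpa using h0
  · simp; omega
  · simp; omega
  · simp; omega
  · simp; omega
  · simp; omega
  · simp; omega

/-- the numbers of blocks if only the residues `1` and `2` remain -/
lemma num7_12 {u v : ℕ} (hd : (u + 2 * v) % 7 = 0) (h : v ≤ 3 * u) :
    ∃ k2221 k22111 k211111 k1 : ℕ, u = k2221 + 3 * k22111 + 5 * k211111 + 7 * k1 ∧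
      v = 3 * k2221 + 2 * k22111 + k211111 := by
  have h3 : v % 3 = 0 ∨ v % 3 = 1 ∨ v % 3 = 2 := by omega
  rcases h3 with h3 | h3 | h3
  · exact ⟨v / 3, 0, 0, (u - v / 3) / 7, by omega, by omega⟩
  · exact ⟨v / 3, 0, 1, (u - v / 3 - 5) / 7, by omega, by omega⟩
  · exact ⟨v / 3, 1, 0, (u - v / 3 - 3) / 7, by omega, by omega⟩

/-- the numbers of blocks if only the residues `1` and `3` remain -/
lemma num7_13 {u v : ℕ} (hd : (u + 3 * v) % 7 = 0) (h : v ≤ 2 * u) :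
    ∃ k331 k31111 k1 : ℕ, u = k331 + 4 * k31111 + 7 * k1 ∧ v = 2 * k331 + k31111 := by
  have h3 : v % 2 = 0 ∨ v % 2 = 1 := by omega
  rcases h3 with h3 | h3
  · exact ⟨v / 2, 0, (u - v / 2) / 7, by omega, by omega⟩
  · exact ⟨v / 2, 1, (u - v / 2 - 4) / 7, by omega, by omega⟩

/-- the numbers of blocks if the residues `1`, `3` and one `2` remain -/
lemma num7_123 {u v : ℕ} (hd : (u + 2 + 3 * v) % 7 = 0) (h : v ≤ 2 * u) :
    ∃ k331 k3211 k211111 k1 : ℕ, u = k331 + 2 * k3211 + 5 * k211111 + 7 * k1 ∧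
      1 = k3211 + k211111 ∧ v = 2 * k331 + k3211 := by
  have h3 : v % 2 = 0 ∨ v % 2 = 1 := by omega
  rcases h3 with h3 | h3
  · exact ⟨v / 2, 0, 1, (u - v / 2 - 5) / 7, by omega, by omega, by omega⟩
  · exact ⟨v / 2, 1, 0, (u - v / 2 - 2) / 7, by omega, by omega, by omega⟩

lemma num7 {f : ι → ℤ} {a : Fin 7 → ℕ} (h0 : a 0 = 0)
    (hd : (7 : ℤ) ∣ (a 1 : ℤ) + 2 * a 2 + 3 * a 3 + 4 * a 4 + 5 * a 5 + 6 * a 6)
    (c2 : (a 1 : ℤ) + 2 * a 2 + 3 * a 3 + 4 * a 4 + 5 * a 5 + 6 * a 6 ≤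
      2 * a 1 + 4 * a 2 + 6 * a 3 + a 4 + 3 * a 5 + 5 * a 6)
    (c3 : (a 1 : ℤ) + 2 * a 2 + 3 * a 3 + 4 * a 4 + 5 * a 5 + 6 * a 6 ≤
      3 * a 1 + 6 * a 2 + 2 * a 3 + 5 * a 4 + a 5 + 4 * a 6)
    (c4 : (a 1 : ℤ) + 2 * a 2 + 3 * a 3 + 4 * a 4 + 5 * a 5 + 6 * a 6 ≤
      4 * a 1 + a 2 + 5 * a 3 + 2 * a 4 + 6 * a 5 + 3 * a 6)
    (c5 : (a 1 : ℤ) + 2 * a 2 + 3 * a 3 + 4 * a 4 + 5 * a 5 + 6 * a 6 ≤
      5 * a 1 + 3 * a 2 + a 3 + 6 * a 4 + 4 * a 5 + 2 * a 6) :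
    G 7 f a := by
  obtain ⟨A, hA⟩ : ∃ A, a 1 = A + a 6 := ⟨a 1 - a 6, by omega⟩
  rcases le_or_gt (a 2) (a 5) with h25 | h25
  · obtain ⟨y5, hy5⟩ := Nat.exists_eq_add_of_le h25
    rcases le_or_gt (a 3) (a 4) with h34 | h34
    · obtain ⟨y4, hy4⟩ := Nat.exists_eq_add_of_le h34
      exact G7 (a 6) (a 2) (a 3) y5 0 y4 0 0 0 0 0 0 0 ((A - 2 * y5 - 3 * y4) / 7) h0 (by omega)
        (by omega) (by omega) (by omega) (by omega) rfl
    · obtain ⟨x3, hx3⟩ := Nat.exists_eq_add_of_le h34.le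
      obtain ⟨k331, k31111, k1, e1, e2⟩ := num7_13 (u := A - 2 * y5) (v := x3) (by omega) (by omega)
      exact G7 (a 6) (a 2) (a 4) y5 0 0 k331 0 0 k31111 0 0 0 k1 h0 (by omega)
        (by omega) (by omega) (by omega) (by omega) rfl
  · obtain ⟨x2, hx2⟩ := Nat.exists_eq_add_of_le h25.le
    rcases le_or_gt (a 3) (a 4) with h34 | h34
    · obtain ⟨y4, hy4⟩ := Nat.exists_eq_add_of_le h34
      rcases le_or_gt y4 x2 with h | h
      · obtain ⟨k2221, k22111, k211111, k1, e1, e2⟩ := num7_12 (u := A - y4) (v := x2 - y4)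
          (by omega) (by omega)
        exact G7 (a 6) (a 5) (a 3) 0 y4 0 0 0 0 0 k2221 k22111 k211111 k1 h0 (by omega)
          (by omega) (by omega) (by omega) (by omega) rfl
      · exact G7 (a 6) (a 5) (a 3) 0 x2 (y4 - x2) 0 0 0 0 0 0 0 ((A - x2 - 3 * (y4 - x2)) / 7) h0
          (by omega) (by omega) (by omega) (by omega) (by omega) rfl
    · obtain ⟨x3, hx3⟩ := Nat.exists_eq_add_of_le h34.le
      rcases le_or_gt x3 (x2 / 2) with h | h
      · obtain ⟨k2221, k22111, k211111, k1, e1, e2⟩ := num7_12 (u := A) (v := x2 - 2 * x3)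
          (by omega) (by omega)
        exact G7 (a 6) (a 5) (a 4) 0 0 0 0 x3 0 0 k2221 k22111 k211111 k1 h0 (by omega)
          (by omega) (by omega) (by omega) (by omega) rfl
      · have h2 : x2 % 2 = 0 ∨ x2 % 2 = 1 := by omega
        rcases h2 with h2 | h2
        · obtain ⟨k331, k31111, k1, e1, e2⟩ := num7_13 (u := A) (v := x3 - x2 / 2) (by omega)
            (by omega)
          exact G7 (a 6) (a 5) (a 4) 0 0 0 k331 (x2 / 2) 0 k31111 0 0 0 k1 h0 (by omega)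
            (by omega) (by omega) (by omega) (by omega) rfl
        · obtain ⟨k331, k3211, k211111, k1, e1, e2, e3⟩ := num7_123 (u := A) (v := x3 - x2 / 2)
            (by omega) (by omega)
          exact G7 (a 6) (a 5) (a 4) 0 0 0 k331 (x2 / 2) k3211 0 0 0 k211111 k1 h0 (by omega)
            (by omega) (by omega) (by omega) (by omega) rfl

/-- `m = 7` -/
theorem exists_partition_seven {m : ℕ} (hm : m = 7) (S : Finset ι) (f : ι → ℤ)
    (hf : ∀ i ∈ S, ¬ (m : ℤ) ∣ f i) (hs : (m : ℤ) ∣ ∑ i ∈ S, f i) :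
    ∃ P : Finpartition S, (∀ A ∈ P.parts, (m : ℤ) ∣ ∑ i ∈ A, f i) ∧
      ∃ j : ℕ, j.Coprime m ∧ ∑ i ∈ S, (j * f i) % (m : ℤ) ≤ m * P.parts.card := by
  subst hm
  refine of_num (by norm_num) hf hs ?_
  intro g a h0 hd hl
  have m2 := hl 2 (by norm_num)
  have m3 := hl 3 (by norm_num)
  have m4 := hl 4 (by norm_num)
  have m5 := hl 5 (by norm_num)
  simp only [Fin.sum_univ_seven] at hd m2 m3 m4 m5
  norm_num at hd m2 m3 m4 m5
  refine num7 (h0 0 rfl) ?_ ?_ ?_ ?_ ?_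
  · convert hd using 1
    ring
  · linarith
  · linarith
  · linarith
  · linarith

/-! ### All elements but one are equal -/

lemma T_ones {m : ℕ} (hm : 0 < m) {g : ι → ℤ} :
    ∀ (k : ℕ) (S : Finset ι), #S = k * m → (∀ i ∈ S, g i % (m : ℤ) = 1) → T m g S := by
  intro k
  induction k with
  | zero =>
    intro S hS _
    rw [zero_mul, card_eq_zero] at hS
    rw [hS]
    exact T_empty m g
  | succ k ih =>
    intro S hS h1
    obtain ⟨B, hB, hBc⟩ := exists_subset_card_eq (s := S) (n := m) (by rw [hS, add_mul]; omega)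
    refine T_cons hm hB ?_ (ih _ ?_ fun i hi => h1 i (mem_sdiff.1 hi).1)
    · rw [sum_congr rfl (fun i hi => h1 i (hB hi)), sum_const, hBc]
      simp
    · rw [card_sdiff_of_subset hB, hS, hBc, add_mul]
      omega

/-- all `m`, all elements but one are equal to one unit -/
theorem exists_partition_uniform {m : ℕ} (hm : 0 < m) (S : Finset ι) (f : ι → ℤ)
    (hf : ∀ i ∈ S, ¬ (m : ℤ) ∣ f i) (hs : (m : ℤ) ∣ ∑ i ∈ S, f i) (i₀ : ι) (e : ℕ)
    (he : e.Coprime m) (hfe : ∀ i ∈ S, i ≠ i₀ → (m : ℤ) ∣ f i - e) :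
    ∃ P : Finpartition S, (∀ A ∈ P.parts, (m : ℤ) ∣ ∑ i ∈ A, f i) ∧
      ∃ j : ℕ, j.Coprime m ∧ ∑ i ∈ S, (j * f i) % (m : ℤ) ≤ m * P.parts.card := by
  have hmz : (0 : ℤ) < m := by exact_mod_cast hm
  by_cases h1 : m = 1
  · have hS : S = ∅ := by
      rw [eq_empty_iff_forall_notMem]
      intro i hi
      apply hf i hi
      rw [h1]
      simp
    subst hS
    exact ⟨Finpartition.empty _, by intro A hA; simp at hA, 1, by simp, by simp⟩
  obtain ⟨j, -, hj⟩ := Nat.exists_mul_mod_eq_one_of_coprime he (by omega)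
  have hjc : j.Coprime m := by
    have h2 : Nat.gcd m (e * j) = 1 := by
      rw [Nat.gcd_rec, hj]
      simp
    exact (Nat.Coprime.coprime_mul_left_right h2).symm
  apply of_T hjc
  have hg1 : ∀ i ∈ S, i ≠ i₀ → ((j : ℤ) * f i) % (m : ℤ) = 1 := by
    intro i hi hne
    have h2 : (j : ℤ) * f i ≡ j * e [ZMOD m] := by
      refine Int.ModEq.mul_left _ ?_
      exact (Int.modEq_iff_dvd.2 (hfe i hi hne)).symm
    have h3 : ((j : ℤ) * e) % m = 1 := by
      rw [mul_comm]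
      exact_mod_cast hj
    exact Eq.trans h2 h3
  have hsum : (m : ℤ) ∣ ∑ i ∈ S, ((j : ℤ) * f i) % (m : ℤ) := by
    rw [← sum_mod, ← mul_sum]
    exact Dvd.dvd.mul_left hs _
  by_cases hi₀ : i₀ ∈ S
  · set c : ℤ := ((j : ℤ) * f i₀) % (m : ℤ) with hc
    have hc0 : 0 ≤ c := Int.emod_nonneg _ hmz.ne'
    have hcm : c < m := Int.emod_lt_of_pos _ hmz
    have hc1 : c ≠ 0 := by
      intro h0
      refine hf i₀ hi₀ (Int.dvd_of_dvd_mul_right_of_gcd_one (Int.dvd_of_emod_eq_zero h0) ?_)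
      rw [Int.gcd_comm]
      exact_mod_cast hjc
    have hsum' : ∑ i ∈ S, ((j : ℤ) * f i) % (m : ℤ) = c + #(S.erase i₀) := by
      rw [← add_sum_erase _ _ hi₀, sum_congr rfl (fun i hi => hg1 i (mem_of_mem_erase hi)
        (ne_of_mem_erase hi)), sum_const]
      simp [hc]
    rw [hsum'] at hsum
    obtain ⟨q, hq⟩ := hsum
    have hq1 : 1 ≤ q := by
      by_contra hcon
      have : q ≤ 0 := by omega
      have h6 : (m : ℤ) * q ≤ 0 := mul_nonpos_of_nonneg_of_nonpos hmz.le this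
      omega
    have hcard : m - c.toNat ≤ #(S.erase i₀) := by
      have : (m : ℤ) ≤ m * q := by nlinarith
      omega
    obtain ⟨B, hB, hBc⟩ := exists_subset_card_eq hcard
    have hiB : i₀ ∉ B := fun h => notMem_erase i₀ S (hB h)
    have hBS : insert i₀ B ⊆ S := insert_subset hi₀ (hB.trans (erase_subset _ _))
    refine T_cons hm hBS ?_ (T_ones hm (q - 1).toNat _ ?_ ?_)
    · rw [sum_insert hiB, sum_congr rfl (fun i hi => hg1 i (hBS (mem_insert_of_mem hi))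
        (fun h => hiB (h ▸ hi))), sum_const, hBc, ← hc]
      simp only [nsmul_eq_mul, mul_one]
      omega
    · rw [card_sdiff_of_subset hBS, card_insert_of_notMem hiB, hBc]
      rw [card_erase_of_mem hi₀] at hq hcard
      have hSpos : 0 < #S := card_pos.2 ⟨i₀, hi₀⟩
      have h5 : (((q - 1).toNat * m : ℕ) : ℤ) = m * q - m := by
        push_cast
        rw [Int.toNat_of_nonneg (by omega)]
        ring
      omega
    · intro i hi
      rw [mem_sdiff, mem_insert, not_or] at hi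
      exact hg1 i hi.1 hi.2.1
  · have h2 : ∀ i ∈ S, ((j : ℤ) * f i) % (m : ℤ) = 1 := fun i hi =>
      hg1 i hi (fun h => hi₀ (h ▸ hi))
    rw [sum_congr rfl h2, sum_const, nsmul_eq_mul, mul_one] at hsum
    have h3 : m ∣ #S := by exact_mod_cast hsum
    obtain ⟨k, hk⟩ := h3
    exact T_ones hm k S (by rw [hk, mul_comm]) h2

end Pool.Agent.J4.H61.BC
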